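import Mathlib

set_option autoImplicit false

/-!
# Subspaces of Banach spaces with an extended M-basis

A Banach space `X` is isomorphic to a subspace of a Banach space with an extended M-basis if and
only if there is a bounded linear injection of `X` into some `c_0(Γ)`, and then it is even
isometric to a norm one complemented subspace of such a space. In particular there is a Banach space
with an extended M-basis which contains `ℓ^∞`.

The construction: let `f_γ` be the coordinates of an injection of `X` into `c_0(Γ)`, and let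
`E = X ⊕ ℓ_1(I)`, where `I` is the disjoint union of `Γ × ℕ` and `X × ℕ`. The basis vectors are
`e_{γ,m}`, and `k d + e_{d,k} - ∑_{(γ,m) ∈ S} k f_γ(d) e_{γ,m}`, where `S` is the finite set of all
`(γ,m)` with `|k f_γ(d)| > 2^m`. The functionals are `f_γ + e*_{γ,m} + h_{γ,m}` with
`h_{γ,m} ∈ ℓ_∞(X × ℕ)`, and `e*_{d,k}`.
-/

open Filter Topology
open scoped ENNReal ZeroAtInfty

universe u

namespace Pool.Agent.Results.MP_810de6_an.LInftyInMBasis

/-- `E` has an extended M-basis: there are vectors `x i` and bounded linear functionals `f i`,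
indexed by an arbitrary set, such that `f j (x i) = δ_ij`, the closed linear span of the `x i` is
`E`, and the `f i` are total. -/
def HasExtendedMBasis (𝕜 : Type*) [RCLike 𝕜] (E : Type u) [NormedAddCommGroup E]
    [NormedSpace 𝕜 E] : Prop :=
  ∃ (I : Type u) (x : I → E) (f : I → StrongDual 𝕜 E),
    (∀ i, f i (x i) = 1) ∧ (∀ i j, i ≠ j → f j (x i) = 0) ∧
    closure (Submodule.span 𝕜 (Set.range x) : Set E) = Set.univ ∧
    ∀ v : E, (∀ i, f i v = 0) → v = 0

/-- There is an injective bounded linear map from `X` to `c_0(Γ)` for some set `Γ` (which carries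
the discrete topology, so that `C₀(Γ, 𝕜)` is `c_0(Γ)`). -/
def InjectsIntoC0 (𝕜 : Type*) [RCLike 𝕜] (X : Type u) [NormedAddCommGroup X]
    [NormedSpace 𝕜 X] : Prop :=
  ∃ (Γ : Type u) (_ : TopologicalSpace Γ) (_ : DiscreteTopology Γ) (T : X →L[𝕜] C₀(Γ, 𝕜)),
    Function.Injective T

/-- `X` is isometric to a norm one complemented subspace of a Banach space with an extended
M-basis. -/
def ComplementedInMBasisSpace (𝕜 : Type*) [RCLike 𝕜] (X : Type u) [NormedAddCommGroup X]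
    [NormedSpace 𝕜 X] : Prop :=
  ∃ (E : Type u) (_ : NormedAddCommGroup E) (_ : NormedSpace 𝕜 E),
    CompleteSpace E ∧ HasExtendedMBasis 𝕜 E ∧
    ∃ (j : X →ₗᵢ[𝕜] E) (P : E →L[𝕜] X), ‖P‖ ≤ 1 ∧ ∀ x, P (j x) = x

/-- `X` is isomorphic to a subspace of a Banach space with an extended M-basis. -/
def EmbedsInMBasisSpace (𝕜 : Type*) [RCLike 𝕜] (X : Type u) [NormedAddCommGroup X]
    [NormedSpace 𝕜 X] : Prop :=
  ∃ (E : Type u) (_ : NormedAddCommGroup E) (_ : NormedSpace 𝕜 E),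
    CompleteSpace E ∧ HasExtendedMBasis 𝕜 E ∧
    ∃ (j : X →L[𝕜] E) (c : ℝ), 0 < c ∧ ∀ x, c * ‖x‖ ≤ ‖j x‖

section ell1

variable {𝕜 : Type*} [RCLike 𝕜] {I : Type*}

theorem summable_l1 (y : lp (fun _ : I => 𝕜) 1) : Summable fun i => ‖y i‖ := by
  have h2 : (0 : ℝ) < (1 : ENNReal).toReal := by norm_num
  have h := (memℓp_gen_iff h2).1 (lp.memℓp y)
  simpa using h

theorem norm_l1 (y : lp (fun _ : I => 𝕜) 1) : ‖y‖ = ∑' i, ‖y i‖ := by
  have h2 : (0 : ℝ) < (1 : ENNReal).toReal := by norm_num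
  rw [lp.norm_eq_tsum_rpow h2]
  simp

/-- the functional on `ℓ_1(I)` given by a bounded function -/
noncomputable def l1fun (h : I → 𝕜) (M : ℝ) (hM : ∀ i, ‖h i‖ ≤ M) :
    lp (fun _ : I => 𝕜) 1 →L[𝕜] 𝕜 :=
  have hs : ∀ y : lp (fun _ : I => 𝕜) 1, Summable fun i => ‖h i * y i‖ := fun y => by
    refine Summable.of_nonneg_of_le (fun i => norm_nonneg _) (fun i => ?_)
      ((summable_l1 y).mul_left M)
    rw [norm_mul]
    exact mul_le_mul_of_nonneg_right (hM i) (norm_nonneg _)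
  LinearMap.mkContinuous
    { toFun := fun y => ∑' i, h i * y i
      map_add' := fun y z => by
        rw [← (hs y).of_norm.tsum_add (hs z).of_norm]
        refine tsum_congr fun i => ?_
        rw [lp.coeFn_add, Pi.add_apply, mul_add]
      map_smul' := fun c y => by
        rw [RingHom.id_apply, smul_eq_mul, ← tsum_mul_left]
        refine tsum_congr fun i => ?_
        rw [lp.coeFn_smul, Pi.smul_apply, smul_eq_mul, mul_left_comm] }
    M (fun y => by
      refine (norm_tsum_le_tsum_norm (hs y)).trans ?_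
      rw [norm_l1, ← tsum_mul_left]
      refine (hs y).tsum_le_tsum (fun i => ?_) ((summable_l1 y).mul_left M)
      rw [norm_mul]
      exact mul_le_mul_of_nonneg_right (hM i) (norm_nonneg _))

theorem l1fun_apply (h : I → 𝕜) (M : ℝ) (hM : ∀ i, ‖h i‖ ≤ M) (y : lp (fun _ : I => 𝕜) 1) :
    l1fun h M hM y = ∑' i, h i * y i := rfl

variable [DecidableEq I]

theorem l1fun_single (h : I → 𝕜) (M : ℝ) (hM : ∀ i, ‖h i‖ ≤ M) (i : I) (a : 𝕜) :
    l1fun h M hM (lp.single 1 i a) = h i * a := by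
  rw [l1fun_apply, tsum_eq_single i]
  · rw [lp.single_apply_self]
  · intro j hj
    rw [lp.single_apply_ne _ _ _ hj, mul_zero]

/-- the unit vectors span a dense subspace of `ℓ_1(I)` -/
theorem mem_of_single {S : Submodule 𝕜 (lp (fun _ : I => 𝕜) 1)}
    (hS : IsClosed (S : Set (lp (fun _ : I => 𝕜) 1)))
    (h : ∀ i, lp.single 1 i (1 : 𝕜) ∈ S) (y : lp (fun _ : I => 𝕜) 1) : y ∈ S := by
  have h1 := lp.hasSum_single (p := (1 : ENNReal)) (by norm_num) y
  refine hS.mem_of_tendsto h1 (Eventually.of_forall fun s => ?_)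
  refine S.sum_mem fun i _ => ?_
  have : lp.single 1 i (y i) = (y i) • lp.single (E := fun _ : I => 𝕜) 1 i (1 : 𝕜) := by
    rw [← lp.single_smul, smul_eq_mul, mul_one]
  rw [this]
  exact S.smul_mem _ (h i)

end ell1

section construction

variable {𝕜 : Type*} [RCLike 𝕜] {X : Type u} [NormedAddCommGroup X] [NormedSpace 𝕜 X]
  {Γ : Type u} (f : Γ → StrongDual 𝕜 X)

/-- the exceptional indices of `k d` -/
def exc (d : X) (k : ℕ) : Set (Γ × ℕ) := {j | (2 : ℝ) ^ j.2 < ‖(k : 𝕜) * f j.1 d‖}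

theorem exc_finite (hf : ∀ (x : X) (ε : ℝ), 0 < ε → {γ | ε ≤ ‖f γ x‖}.Finite)
    (hb : ∀ x : X, ∃ C : ℝ, ∀ γ, ‖f γ x‖ ≤ C) (d : X) (k : ℕ) : (exc f d k).Finite := by
  obtain ⟨C, hC⟩ := hb d
  obtain ⟨N, hN⟩ := pow_unbounded_of_one_lt ((k : ℝ) * C) (one_lt_two)
  have hsub : exc f d k ⊆ {γ | 1 / ((k : ℝ) + 1) ≤ ‖f γ d‖} ×ˢ {m | m < N} := by
    rintro ⟨γ, m⟩ hj
    have hj' : (2 : ℝ) ^ m < ‖(k : 𝕜) * f γ d‖ := hj
    rw [norm_mul, RCLike.norm_natCast] at hj'
    constructor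
    · show 1 / ((k : ℝ) + 1) ≤ ‖f γ d‖
      rw [div_le_iff₀ (by positivity)]
      have h1 : (1 : ℝ) ≤ 2 ^ m := one_le_pow₀ (by norm_num)
      nlinarith [norm_nonneg (f γ d)]
    · show m < N
      by_contra hcon
      push Not at hcon
      have h1 : (2 : ℝ) ^ N ≤ 2 ^ m := pow_le_pow_right₀ (by norm_num) hcon
      have h2 : (k : ℝ) * ‖f γ d‖ ≤ k * C := mul_le_mul_of_nonneg_left (hC γ) (by positivity)
      linarith
  exact ((hf d _ (by positivity)).prod (Set.finite_lt_nat N)).subset hsub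

open Classical in
/-- the bounded functions which give the functionals -/
noncomputable def hfun (i : (Γ × ℕ) ⊕ (X × ℕ)) : (Γ × ℕ) ⊕ (X × ℕ) → 𝕜 :=
  match i with
  | Sum.inl j => fun l => match l with
    | Sum.inl j' => if j' = j then 1 else 0
    | Sum.inr (d, k) => if j ∈ exc f d k then 0 else -((k : 𝕜) * f j.1 d)
  | Sum.inr p => fun l => if l = Sum.inr p then 1 else 0

/-- their bounds -/
noncomputable def hbd (i : (Γ × ℕ) ⊕ (X × ℕ)) : ℝ :=
  match i with
  | Sum.inl j => 2 ^ j.2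
  | Sum.inr _ => 1

theorem hfun_le (i l : (Γ × ℕ) ⊕ (X × ℕ)) : ‖hfun f i l‖ ≤ hbd i := by
  classical
  rcases i with j | p
  · have h1 : (1 : ℝ) ≤ 2 ^ j.2 := one_le_pow₀ (by norm_num)
    rcases l with j' | ⟨d, k⟩
    · show ‖(if j' = j then (1 : 𝕜) else 0)‖ ≤ 2 ^ j.2
      split_ifs
      · rw [norm_one]; exact h1
      · rw [norm_zero]; positivity
    · show ‖(if j ∈ exc f d k then (0 : 𝕜) else -((k : 𝕜) * f j.1 d))‖ ≤ 2 ^ j.2
      split_ifs with h
      · rw [norm_zero]; positivity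
      · rw [norm_neg]
        exact not_lt.1 h
  · show ‖(if l = Sum.inr p then (1 : 𝕜) else 0)‖ ≤ 1
    split_ifs
    · rw [norm_one]
    · rw [norm_zero]; exact zero_le_one

/-- the functionals on `E = X ⊕ ℓ_1(I)` -/
noncomputable def Ff (i : (Γ × ℕ) ⊕ (X × ℕ)) :
    StrongDual 𝕜 (X × lp (fun _ : (Γ × ℕ) ⊕ (X × ℕ) => 𝕜) 1) :=
  (match i with
  | Sum.inl j => (f j.1).comp (ContinuousLinearMap.fst 𝕜 X _)
  | Sum.inr _ => 0) +
  (l1fun (hfun f i) (hbd i) (hfun_le f i)).comp (ContinuousLinearMap.snd 𝕜 X _)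

theorem Ff_inl (j : Γ × ℕ) (v : X × lp (fun _ : (Γ × ℕ) ⊕ (X × ℕ) => 𝕜) 1) :
    Ff f (Sum.inl j) v = f j.1 v.1 +
      l1fun (hfun f (Sum.inl j)) (hbd (Sum.inl j)) (hfun_le f (Sum.inl j)) v.2 := rfl

theorem Ff_inr (p : X × ℕ) (v : X × lp (fun _ : (Γ × ℕ) ⊕ (X × ℕ) => 𝕜) 1) :
    Ff f (Sum.inr p) v =
      l1fun (hfun f (Sum.inr p)) (hbd (Sum.inr p)) (hfun_le f (Sum.inr p)) v.2 := by
  show (0 : 𝕜) + _ = _
  rw [zero_add]
  rfl

open Classical in
/-- the vectors -/
noncomputable def Fx (hfin : ∀ (d : X) (k : ℕ), (exc f d k).Finite) (i : (Γ × ℕ) ⊕ (X × ℕ)) :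
    X × lp (fun _ : (Γ × ℕ) ⊕ (X × ℕ) => 𝕜) 1 :=
  match i with
  | Sum.inl j => (0, lp.single 1 (Sum.inl j) (1 : 𝕜))
  | Sum.inr (d, k) => ((k : 𝕜) • d, lp.single 1 (Sum.inr (d, k)) (1 : 𝕜) -
      ∑ j ∈ (hfin d k).toFinset, lp.single 1 (Sum.inl j) ((k : 𝕜) * f j.1 d))

variable (hfin : ∀ (d : X) (k : ℕ), (exc f d k).Finite)

open Classical in
theorem biorth (i j : (Γ × ℕ) ⊕ (X × ℕ)) :
    Ff f j (Fx f hfin i) = if i = j then 1 else 0 := by
  rcases j with j | p
  · rw [Ff_inl]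
    rcases i with i | ⟨d, k⟩
    · show f j.1 (0 : X) + l1fun _ _ _ (lp.single 1 (Sum.inl i) (1 : 𝕜)) = _
      rw [map_zero, zero_add, l1fun_single, mul_one]
      show (if i = j then (1 : 𝕜) else 0) = _
      simp only [Sum.inl.injEq]
    · show f j.1 ((k : 𝕜) • d) + l1fun _ _ _ (lp.single 1 (Sum.inr (d, k)) (1 : 𝕜) -
        ∑ l ∈ (hfin d k).toFinset, lp.single 1 (Sum.inl l) ((k : 𝕜) * f l.1 d)) = _
      rw [map_sub, map_sum, l1fun_single, map_smul, smul_eq_mul, mul_one, if_neg (by simp)]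
      simp only [l1fun_single]
      have h1 : ∀ l : Γ × ℕ, hfun f (Sum.inl j) (Sum.inl l) * ((k : 𝕜) * f l.1 d) =
          if l = j then (k : 𝕜) * f j.1 d else 0 := by
        intro l
        show (if l = j then (1 : 𝕜) else 0) * _ = _
        split_ifs with h
        · rw [h, one_mul]
        · rw [zero_mul]
      rw [Finset.sum_congr rfl fun l _ => h1 l, Finset.sum_ite_eq']
      show _ + ((if j ∈ exc f d k then (0 : 𝕜) else -((k : 𝕜) * f j.1 d)) - _) = 0
      by_cases h : j ∈ exc f d k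
      · rw [if_pos h, if_pos ((hfin d k).mem_toFinset.2 h)]
        ring
      · rw [if_neg h, if_neg (fun hc => h ((hfin d k).mem_toFinset.1 hc))]
        ring
  · rw [Ff_inr]
    rcases i with i | ⟨d, k⟩
    · show l1fun _ _ _ (lp.single 1 (Sum.inl i) (1 : 𝕜)) = _
      rw [l1fun_single, mul_one]
      rfl
    · show l1fun _ _ _ (lp.single 1 (Sum.inr (d, k)) (1 : 𝕜) -
        ∑ l ∈ (hfin d k).toFinset, lp.single 1 (Sum.inl l) ((k : 𝕜) * f l.1 d)) = _
      rw [map_sub, map_sum, l1fun_single, mul_one]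
      simp only [l1fun_single]
      have h1 : ∀ l : Γ × ℕ, hfun f (Sum.inr p) (Sum.inl l) * ((k : 𝕜) * f l.1 d) = 0 := by
        intro l
        show (if (Sum.inl l : (Γ × ℕ) ⊕ (X × ℕ)) = Sum.inr p then (1 : 𝕜) else 0) * _ = _
        rw [if_neg (by simp), zero_mul]
      rw [Finset.sum_congr rfl fun l _ => h1 l, Finset.sum_const_zero, sub_zero]
      rfl

theorem total (hT : ∀ x : X, (∀ γ, f γ x = 0) → x = 0)
    (v : X × lp (fun _ : (Γ × ℕ) ⊕ (X × ℕ) => 𝕜) 1) (hv : ∀ i, Ff f i v = 0) : v = 0 := by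
  classical
  obtain ⟨x, y⟩ := v
  -- the coordinates of `y` in `X × ℕ` vanish
  have hy : ∀ p : X × ℕ, y (Sum.inr p) = 0 := by
    intro p
    have h := hv (Sum.inr p)
    rw [Ff_inr, l1fun_apply, tsum_eq_single (Sum.inr p)] at h
    · have h1 : hfun f (Sum.inr p) (Sum.inr p) = 1 := if_pos rfl
      rw [h1, one_mul] at h
      exact h
    · intro l hl
      have h1 : hfun f (Sum.inr p) l = 0 := if_neg hl
      rw [h1, zero_mul]
  have hy2 : ∀ j : Γ × ℕ, f j.1 x + y (Sum.inl j) = 0 := by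
    intro j
    have h := hv (Sum.inl j)
    rw [Ff_inl, l1fun_apply, tsum_eq_single (Sum.inl j)] at h
    · have h1 : hfun f (Sum.inl j) (Sum.inl j) = 1 := if_pos rfl
      rw [h1, one_mul] at h
      exact h
    · rintro (l | l) hl
      · have h1 : hfun f (Sum.inl j) (Sum.inl l) = 0 := by
          show (if l = j then (1 : 𝕜) else 0) = 0
          rw [if_neg]
          rintro rfl
          exact hl rfl
        rw [h1, zero_mul]
      · show _ * y (Sum.inr l) = 0
        rw [hy l, mul_zero]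
  have hx : ∀ γ, f γ x = 0 := by
    intro γ
    -- `y_{γ,m} = - f_γ(x)` for all `m`, and `y_{γ,m} → 0`
    have h1 : Summable fun m : ℕ => ‖y (Sum.inl (γ, m))‖ :=
      (summable_l1 y).comp_injective (i := fun m : ℕ => (Sum.inl (γ, m) : (Γ × ℕ) ⊕ (X × ℕ)))
        fun a b hab => by simpa using hab
    have h2 := h1.tendsto_atTop_zero
    have h3 : (fun m : ℕ => ‖y (Sum.inl (γ, m))‖) = fun _ => ‖f γ x‖ := by
      funext m
      have := hy2 (γ, m)
      rw [eq_neg_of_add_eq_zero_right this, norm_neg]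
    rw [h3] at h2
    exact norm_eq_zero.1 (tendsto_nhds_unique tendsto_const_nhds h2)
  have hx0 := hT x hx
  refine Prod.ext hx0 ?_
  ext i
  rcases i with j | p
  · have := hy2 j
    rw [hx, zero_add] at this
    rw [this]
    rfl
  · rw [hy p]
    rfl

theorem dense_span : closure (Submodule.span 𝕜 (Set.range (Fx f hfin)) :
    Set (X × lp (fun _ : (Γ × ℕ) ⊕ (X × ℕ) => 𝕜) 1)) = Set.univ := by
  classical
  set W := (Submodule.span 𝕜 (Set.range (Fx f hfin))).topologicalClosure with hW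
  have hWc : IsClosed (W : Set (X × lp (fun _ : (Γ × ℕ) ⊕ (X × ℕ) => 𝕜) 1)) :=
    Submodule.isClosed_topologicalClosure _
  have hmem : ∀ i, Fx f hfin i ∈ W := fun i =>
    Submodule.le_topologicalClosure _ (Submodule.subset_span ⟨i, rfl⟩)
  have h1 : ∀ j : Γ × ℕ, ((0 : X), lp.single (E := fun _ : (Γ × ℕ) ⊕ (X × ℕ) => 𝕜) 1 (Sum.inl j)
      (1 : 𝕜)) ∈ W := fun j => hmem (Sum.inl j)
  have h1' : ∀ (j : Γ × ℕ) (a : 𝕜), ((0 : X), lp.single (E := fun _ : (Γ × ℕ) ⊕ (X × ℕ) => 𝕜) 1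
      (Sum.inl j) a) ∈ W := by
    intro j a
    have := W.smul_mem a (h1 j)
    rwa [Prod.smul_mk, smul_zero, ← lp.single_smul, smul_eq_mul, mul_one] at this
  have h2 : ∀ (d : X) (k : ℕ), ((k : 𝕜) • d, lp.single (E := fun _ : (Γ × ℕ) ⊕ (X × ℕ) => 𝕜) 1
      (Sum.inr (d, k)) (1 : 𝕜)) ∈ W := by
    intro d k
    have h3 := W.add_mem (hmem (Sum.inr (d, k)))
      (W.sum_mem (t := (hfin d k).toFinset) (f := fun j : Γ × ℕ => ((0 : X),
        lp.single (E := fun _ : (Γ × ℕ) ⊕ (X × ℕ) => 𝕜) 1 (Sum.inl j) ((k : 𝕜) * f j.1 d)))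
        fun j _ => h1' j ((k : 𝕜) * f j.1 d))
    have h4 : Fx f hfin (Sum.inr (d, k)) + ∑ j ∈ (hfin d k).toFinset,
        ((0 : X), lp.single (E := fun _ : (Γ × ℕ) ⊕ (X × ℕ) => 𝕜) 1 (Sum.inl j)
          ((k : 𝕜) * f j.1 d)) = ((k : 𝕜) • d, lp.single 1 (Sum.inr (d, k)) (1 : 𝕜)) := by
      refine Prod.ext ?_ ?_
      · rw [Prod.fst_add, Prod.fst_sum, Finset.sum_const_zero, add_zero]
        rfl
      · rw [Prod.snd_add, Prod.snd_sum]
        show (lp.single (E := fun _ : (Γ × ℕ) ⊕ (X × ℕ) => 𝕜) 1 (Sum.inr (d, k)) (1 : 𝕜) -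
          ∑ j ∈ (hfin d k).toFinset, lp.single (E := fun _ : (Γ × ℕ) ⊕ (X × ℕ) => 𝕜) 1 (Sum.inl j)
            ((k : 𝕜) * f j.1 d)) + _ = _
        rw [sub_add_cancel]
    rwa [h4] at h3
  have h5 : ∀ d : X, (d, (0 : lp (fun _ : (Γ × ℕ) ⊕ (X × ℕ) => 𝕜) 1)) ∈ W := by
    intro d
    have hlim : Tendsto (fun k : ℕ => (d, lp.single (E := fun _ : (Γ × ℕ) ⊕ (X × ℕ) => 𝕜) 1
        (Sum.inr (d, k + 1)) (((k : 𝕜) + 1)⁻¹))) atTop (𝓝 (d, 0)) := by
      refine tendsto_const_nhds.prodMk_nhds ?_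
      rw [tendsto_zero_iff_norm_tendsto_zero]
      have h6 : (fun k : ℕ => ‖lp.single (E := fun _ : (Γ × ℕ) ⊕ (X × ℕ) => 𝕜) 1
          (Sum.inr (d, k + 1)) (((k : 𝕜) + 1)⁻¹)‖) = fun k : ℕ => 1 / ((k : ℝ) + 1) := by
        funext k
        rw [lp.norm_single (by norm_num : (0 : ENNReal) < 1), norm_inv, one_div]
        congr 1
        have : ((k : 𝕜) + 1) = ((k + 1 : ℕ) : 𝕜) := by push_cast; rfl
        rw [this, RCLike.norm_natCast]
        push_cast
        rfl
      rw [h6]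
      exact tendsto_one_div_add_atTop_nhds_zero_nat
    refine hWc.mem_of_tendsto hlim (Eventually.of_forall fun k => ?_)
    have h7 := W.smul_mem (((k : 𝕜) + 1)⁻¹) (h2 d (k + 1))
    have hk : ((k : 𝕜) + 1) ≠ 0 := by
      have : ((k : 𝕜) + 1) = ((k + 1 : ℕ) : 𝕜) := by push_cast; rfl
      rw [this]
      exact_mod_cast Nat.succ_ne_zero k
    rw [Prod.smul_mk, ← lp.single_smul, smul_eq_mul, mul_one, Nat.cast_add, Nat.cast_one,
      smul_smul, inv_mul_cancel₀ hk, one_smul] at h7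
    exact h7
  have h8 : ∀ i : (Γ × ℕ) ⊕ (X × ℕ), ((0 : X), lp.single (E := fun _ : (Γ × ℕ) ⊕ (X × ℕ) => 𝕜) 1
      i (1 : 𝕜)) ∈ W := by
    rintro (j | ⟨d, k⟩)
    · exact h1 j
    · have := W.sub_mem (h2 d k) (W.smul_mem (k : 𝕜) (h5 d))
      rwa [Prod.smul_mk, smul_zero, Prod.mk_sub_mk, sub_self, sub_zero] at this
  have h9 : ∀ y : lp (fun _ : (Γ × ℕ) ⊕ (X × ℕ) => 𝕜) 1, ((0 : X), y) ∈ W := by
    intro y
    have := mem_of_single (S := W.comap (LinearMap.inr 𝕜 X _)) ?_ (fun i => ?_) y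
    · exact this
    · exact hWc.preimage (ContinuousLinearMap.inr 𝕜 X _).continuous
    · exact h8 i
  rw [← Submodule.topologicalClosure_coe, Set.eq_univ_iff_forall]
  rintro ⟨x, y⟩
  have := W.add_mem (h5 x) (h9 y)
  rwa [Prod.mk_add_mk, add_zero, zero_add] at this

end construction

/-- from injections into `c_0(Γ)` to M-bases -/
theorem complemented_of_injects (𝕜 : Type) [RCLike 𝕜] (X : Type u) [NormedAddCommGroup X]
    [NormedSpace 𝕜 X] [CompleteSpace X] (h : InjectsIntoC0 𝕜 X) :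
    ComplementedInMBasisSpace 𝕜 X := by
  obtain ⟨Γ, _, _, T, hT⟩ := h
  let ev : Γ → C₀(Γ, 𝕜) →L[𝕜] 𝕜 := fun γ =>
    LinearMap.mkContinuous
      { toFun := fun g => g γ
        map_add' := fun _ _ => rfl
        map_smul' := fun _ _ => rfl } 1 (fun g => by
          rw [one_mul]
          exact g.toBCF.norm_coe_le_norm γ)
  let f : Γ → StrongDual 𝕜 X := fun γ => (ev γ).comp T
  have hf : ∀ (x : X) (ε : ℝ), 0 < ε → {γ | ε ≤ ‖f γ x‖}.Finite := by
    intro x ε hε
    have h1 := (T x).zero_at_infty'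
    rw [Filter.cocompact_eq_cofinite] at h1
    have h2 := (Metric.tendsto_nhds.1 h1) ε hε
    rw [Filter.eventually_cofinite] at h2
    refine h2.subset fun γ hγ => ?_
    show ¬ dist _ _ < ε
    rw [dist_zero_right, not_lt]
    exact hγ
  have hb : ∀ x : X, ∃ C : ℝ, ∀ γ, ‖f γ x‖ ≤ C := fun x =>
    ⟨‖T x‖, fun γ => (T x).toBCF.norm_coe_le_norm γ⟩
  have hfin := exc_finite f hf hb
  have htot : ∀ x : X, (∀ γ, f γ x = 0) → x = 0 := by
    intro x hx
    apply hT
    rw [map_zero]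
    ext γ
    exact hx γ
  refine ⟨X × lp (fun _ : (Γ × ℕ) ⊕ (X × ℕ) => 𝕜) 1, inferInstance, inferInstance, inferInstance,
    ⟨_, Fx f hfin, Ff f, fun i => ?_, fun i j hij => ?_, dense_span f hfin, total f htot⟩,
    ⟨(ContinuousLinearMap.inl 𝕜 X _).toLinearMap, fun x => ?_⟩,
    ContinuousLinearMap.fst 𝕜 X _, ContinuousLinearMap.norm_fst_le _ _ _, fun x => rfl⟩
  · rw [biorth, if_pos rfl]
  · rw [biorth, if_neg hij]
  · show ‖((x, 0) : X × lp (fun _ : (Γ × ℕ) ⊕ (X × ℕ) => 𝕜) 1)‖ = ‖x‖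
    rw [Prod.norm_mk, norm_zero]
    exact max_eq_left (norm_nonneg x)

/-- from M-bases to injections into `c_0(Γ)` -/
theorem injects_of_embeds (𝕜 : Type) [RCLike 𝕜] (X : Type u) [NormedAddCommGroup X]
    [NormedSpace 𝕜 X] (h : EmbedsInMBasisSpace 𝕜 X) :
    InjectsIntoC0 𝕜 X := by
  classical
  obtain ⟨E, _, _, _, ⟨I, x, f, h1, h0, hd, ht⟩, j, c, hc, hj⟩ := h
  let _ : TopologicalSpace I := ⊥
  have _ : DiscreteTopology I := ⟨rfl⟩
  have hcst : ∀ i, ‖f i‖ ≠ 0 := by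
    intro i hi
    rw [norm_eq_zero] at hi
    have := h1 i
    rw [hi] at this
    exact zero_ne_one this
  -- the normalised functionals
  let g : I → StrongDual 𝕜 E := fun i => ((‖f i‖⁻¹ : ℝ) : 𝕜) • f i
  have hg : ∀ i, ‖g i‖ ≤ 1 := by
    intro i
    show ‖((‖f i‖⁻¹ : ℝ) : 𝕜) • f i‖ ≤ 1
    rw [norm_smul, RCLike.norm_ofReal, abs_of_nonneg (by positivity), inv_mul_cancel₀ (hcst i)]
  have hg0 : ∀ i v, g i v = 0 → f i v = 0 := by
    intro i v hv
    have hv' : ((‖f i‖⁻¹ : ℝ) : 𝕜) * f i v = 0 := hv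
    rcases mul_eq_zero.1 hv' with h2 | h2
    · exact absurd (RCLike.ofReal_eq_zero.1 h2) (inv_ne_zero (hcst i))
    · exact h2
  have hle : ∀ i v, ‖g i v‖ ≤ ‖v‖ := fun i v =>
    ((g i).le_of_opNorm_le (hg i) v).trans (by rw [one_mul])
  -- the coordinates tend to zero
  have hzero : ∀ v : E, Tendsto (fun i => g i v) cofinite (𝓝 0) := by
    intro v
    rw [Metric.tendsto_nhds]
    intro ε hε
    have hv : v ∈ closure (Submodule.span 𝕜 (Set.range x) : Set E) := by rw [hd]; trivial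
    obtain ⟨w, hw, hvw⟩ := Metric.mem_closure_iff.1 hv ε hε
    have hfin : {i | g i w ≠ 0}.Finite := by
      refine Submodule.span_induction (p := fun w _ => {i | g i w ≠ 0}.Finite) ?_ ?_ ?_ ?_ hw
      · rintro _ ⟨k, rfl⟩
        refine (Set.finite_singleton k).subset fun i hi => ?_
        by_contra hne
        apply hi
        show ((‖f i‖⁻¹ : ℝ) : 𝕜) * f i (x k) = 0
        rw [h0 k i (fun h => hne h.symm), mul_zero]
      · simp
      · intro a b _ _ ha hb
        refine (ha.union hb).subset fun i hi => ?_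
        by_contra hne
        rw [Set.mem_union, not_or] at hne
        have e1 : g i a = 0 := not_not.1 hne.1
        have e2 : g i b = 0 := not_not.1 hne.2
        exact hi (by rw [map_add, e1, e2, add_zero])
      · intro a b _ hb
        refine hb.subset fun i hi h => hi ?_
        rw [map_smul, h, smul_zero]
    rw [Filter.eventually_cofinite]
    refine hfin.subset fun i hi hc => hi ?_
    rw [dist_zero_right]
    have : g i v = g i (v - w) := by rw [map_sub, hc, sub_zero]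
    rw [this]
    refine (hle i _).trans_lt ?_
    rwa [dist_eq_norm] at hvw
  let T0 : E →ₗ[𝕜] C₀(I, 𝕜) :=
    { toFun := fun v => ⟨⟨fun i => g i v, continuous_of_discreteTopology⟩, by
        rw [Filter.cocompact_eq_cofinite]; exact hzero v⟩
      map_add' := fun v w => by ext i; exact map_add (g i) v w
      map_smul' := fun a v => by ext i; exact map_smul (g i) a v }
  let T : E →L[𝕜] C₀(I, 𝕜) := T0.mkContinuous 1 (fun v => by
    rw [one_mul]
    exact (BoundedContinuousFunction.norm_le (norm_nonneg v)).2 fun i => hle i v)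
  refine ⟨I, inferInstance, inferInstance, T.comp j, ?_⟩
  intro a b hab
  have h2 : j a - j b = 0 := by
    apply ht
    intro i
    apply hg0
    rw [map_sub, sub_eq_zero]
    exact congrArg (fun F : C₀(I, 𝕜) => F i) hab
  have h3 := hj (a - b)
  rw [map_sub, h2, norm_zero] at h3
  have h4 : ‖a - b‖ ≤ 0 := by
    by_contra hcon
    push Not at hcon
    exact absurd h3 (not_le.2 (mul_pos hc hcon))
  exact sub_eq_zero.1 (norm_le_zero_iff.1 h4)

/-- `ℓ^∞` injects into `c_0`. -/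
theorem linfty_injects (𝕜 : Type) [RCLike 𝕜] : InjectsIntoC0 𝕜 (lp (fun _ : ℕ => 𝕜) ∞) := by
  have hcf : ∀ v : lp (fun _ : ℕ => 𝕜) ∞, ∀ i : ℕ, ‖(1 / ((i : 𝕜) + 1)) * v i‖ ≤
      (1 / ((i : ℝ) + 1)) * ‖v‖ := by
    intro v i
    have : ((i : 𝕜) + 1) = ((i + 1 : ℕ) : 𝕜) := by push_cast; rfl
    rw [norm_mul, norm_div, norm_one, this, RCLike.norm_natCast]
    push_cast
    exact mul_le_mul_of_nonneg_left (lp.norm_apply_le_norm ENNReal.top_ne_zero v i) (by positivity)
  have hzero : ∀ v : lp (fun _ : ℕ => 𝕜) ∞,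
      Tendsto (fun i : ℕ => (1 / ((i : 𝕜) + 1)) * v i) cofinite (𝓝 0) := by
    intro v
    rw [Nat.cofinite_eq_atTop]
    refine squeeze_zero_norm (hcf v) ?_
    have := (tendsto_one_div_add_atTop_nhds_zero_nat (𝕜 := ℝ)).mul_const ‖v‖
    rwa [zero_mul] at this
  let T0 : lp (fun _ : ℕ => 𝕜) ∞ →ₗ[𝕜] C₀(ℕ, 𝕜) :=
    { toFun := fun v => ⟨⟨fun i => (1 / ((i : 𝕜) + 1)) * v i, continuous_of_discreteTopology⟩, by
        rw [Filter.cocompact_eq_cofinite]; exact hzero v⟩
      map_add' := fun v w => by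
        ext i
        show (1 / ((i : 𝕜) + 1)) * (v i + w i) = _
        rw [mul_add]
        rfl
      map_smul' := fun a v => by
        ext i
        show (1 / ((i : 𝕜) + 1)) * (a * v i) = _
        rw [mul_left_comm]
        rfl }
  let T : lp (fun _ : ℕ => 𝕜) ∞ →L[𝕜] C₀(ℕ, 𝕜) := T0.mkContinuous 1 (fun v => by
    rw [one_mul]
    refine (BoundedContinuousFunction.norm_le (norm_nonneg v)).2 fun i => (hcf v i).trans ?_
    refine mul_le_of_le_one_left (norm_nonneg v) ?_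
    rw [div_le_one (by positivity)]
    have : (0 : ℝ) ≤ i := Nat.cast_nonneg i
    linarith)
  refine ⟨ℕ, inferInstance, inferInstance, T, ?_⟩
  intro v w hvw
  ext i
  have h1 : (1 / ((i : 𝕜) + 1)) * v i = (1 / ((i : 𝕜) + 1)) * w i :=
    congrArg (fun F : C₀(ℕ, 𝕜) => F i) hvw
  refine mul_left_cancel₀ ?_ h1
  have : ((i : 𝕜) + 1) = ((i + 1 : ℕ) : 𝕜) := by push_cast; rfl
  rw [this]
  exact one_div_ne_zero (by exact_mod_cast Nat.succ_ne_zero i)

/-- **Subspaces of Banach spaces with an extended M-basis.** Let `𝕜` be the real or the complex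
field. (1) There is a Banach space over `𝕜` with an extended M-basis which contains a norm one
complemented subspace isometric to `ℓ^∞`. (2) For a Banach space `X` the following are equivalent:
there is a bounded linear injection from `X` to `c_0(Γ)` for some set `Γ`; `X` is isometric to a norm
one complemented subspace of a Banach space with an extended M-basis; `X` is isomorphic to a
subspace of a Banach space with an extended M-basis. -/
theorem result (𝕜 : Type) [RCLike 𝕜] :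
    ComplementedInMBasisSpace 𝕜 (lp (fun _ : ℕ => 𝕜) ∞) ∧
    ∀ (X : Type u) [NormedAddCommGroup X] [NormedSpace 𝕜 X] [CompleteSpace X],
      List.TFAE [InjectsIntoC0 𝕜 X, ComplementedInMBasisSpace 𝕜 X, EmbedsInMBasisSpace 𝕜 X] := by
  refine ⟨complemented_of_injects 𝕜 _ (linfty_injects 𝕜), fun X _ _ _ => ?_⟩
  tfae_have 1 → 2 := complemented_of_injects 𝕜 X
  tfae_have 2 → 3 := by
    rintro ⟨E, i1, i2, i3, hE, j, P, -, -⟩
    exact ⟨E, i1, i2, i3, hE, j.toContinuousLinearMap, 1, one_pos, fun x => by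
      rw [one_mul]
      exact (j.norm_map x).ge⟩
  tfae_have 3 → 1 := injects_of_embeds 𝕜 X
  tfae_finish

end Pool.Agent.Results.MP_810de6_an.LInftyInMBasis
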